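import Pool.Agent.W291.GB.SDE

set_option autoImplicit false
open MeasureTheory ProbabilityTheory Filter Topology
open scoped NNReal Matrix ComplexOrder

namespace Pool.Agent.W291.GB
open Pool.Agent.W837.GB

set_option linter.unusedSectionVars false
variable {P : Type} [Fintype P] [DecidableEq P]

/-- derivative of the determinant along a real line -/
theorem det_deriv (G H : Matrix P P ℂ) (hdet : IsUnit G.det) :
    HasDerivAt (fun t : ℝ => (G + (t : ℂ) • H).det) (G.det * (G⁻¹ * H).trace) 0 := by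
  obtain ⟨q, hq⟩ : ∃ q : Polynomial ℂ,
    q = (Matrix.det (1 + (Polynomial.X : Polynomial ℂ) • (G⁻¹ * H).map Polynomial.C)).divX.divX := ⟨_, rfl⟩
  have e : ∀ t : ℝ, (G + (t : ℂ) • H).det = G.det * (1 + (G⁻¹ * H).trace * (t : ℂ) +
      q.eval (t : ℂ) * (t : ℂ) ^ 2) := by
    intro t
    rw [hq, ← Matrix.det_one_add_smul, ← Matrix.det_mul, mul_add, mul_one, Matrix.mul_smul,
      ← Matrix.mul_assoc, Matrix.mul_nonsing_inv _ hdet, one_mul]
  rw [show (fun t : ℝ => (G + (t : ℂ) • H).det) = fun t : ℝ => G.det * (1 + (G⁻¹ * H).trace * (t : ℂ) +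
      q.eval (t : ℂ) * (t : ℂ) ^ 2) from funext e]
  have h1 : HasDerivAt (fun z : ℂ => q.eval z * z ^ 2) 0 0 := by
    have := (q.hasDerivAt 0).fun_mul (hasDerivAt_pow 2 (0:ℂ))
    simpa using this
  have h2 : HasDerivAt (fun z : ℂ => 1 + (G⁻¹ * H).trace * z) ((G⁻¹ * H).trace) 0 := by
    have := ((hasDerivAt_id (0:ℂ)).const_mul ((G⁻¹ * H).trace)).const_add 1
    simpa using this
  have h3 := (h2.fun_add h1).const_mul G.det
  rw [add_zero] at h3
  have h4 := HasDerivAt.comp_ofReal (z := (0:ℝ)) (by simpa using h3)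
  exact h4

/-- the determinant as a function on `P → P → ℂ` -/
noncomputable def Df (M : P → P → ℂ) : ℂ := Matrix.det (Matrix.of M)

theorem contDiff_Df : ContDiff ℝ 1 (Df : (P → P → ℂ) → ℂ) := by
  unfold Df
  simp only [Matrix.det_apply, Matrix.of_apply]
  refine ContDiff.sum fun σ _ => ?_
  refine ContDiff.const_smul _ ?_
  exact contDiff_prod fun i _ => contDiff_apply_apply ℝ ℂ (σ i) i

theorem fderiv_Df (G H : P → P → ℂ) (hdet : IsUnit (Matrix.of G).det) :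
    fderiv ℝ Df G H = (Matrix.of G).det * ((Matrix.of G)⁻¹ * Matrix.of H).trace := by
  have h1 := det_deriv (Matrix.of G) (Matrix.of H) hdet
  have hD : HasFDerivAt Df (fderiv ℝ Df G) G :=
    (contDiff_Df.differentiable (by norm_num)).differentiableAt.hasFDerivAt
  have hl : HasDerivAt (fun t : ℝ => G + t • H) H 0 := by
    simpa using ((hasDerivAt_id (0:ℝ)).smul_const H).const_add G
  have h2 : HasDerivAt (fun t : ℝ => Df (G + t • H)) (fderiv ℝ Df G H) 0 := by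
    have hD' : HasFDerivAt Df (fderiv ℝ Df G) (G + (0:ℝ) • H) := by simpa using hD
    exact hD'.comp_hasDerivAt (0:ℝ) hl
  have h3 : (fun t : ℝ => Df (G + t • H)) = fun t : ℝ => (Matrix.of G + (t : ℂ) • Matrix.of H).det := by
    funext t
    unfold Df
    congr 1
  rw [h3] at h2
  exact h2.unique h1

theorem Q_posDef (M : Matrix P P ℂ) {δ : ℝ} (hδ : 0 < δ) : (Q M δ).PosDef := by
  unfold Q
  refine Matrix.PosDef.posSemidef_add (Matrix.posSemidef_self_mul_conjTranspose M) ?_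
  have : (0 : ℂ) < ((δ ^ 2 : ℝ) : ℂ) := by exact_mod_cast (by positivity : (0:ℝ) < δ ^ 2)
  exact Matrix.PosDef.one.smul this

theorem Q_det_pos (M : Matrix P P ℂ) {δ : ℝ} (hδ : 0 < δ) : 0 < (Q M δ).det.re ∧ (Q M δ).det.im = 0 := by
  have := (Q_posDef M hδ).det_pos
  rw [Complex.lt_def] at this
  exact ⟨by simpa using this.1, by simpa using this.2.symm⟩

theorem Q_det_unit (M : Matrix P P ℂ) {δ : ℝ} (hδ : 0 < δ) : IsUnit (Q M δ).det := by
  rw [isUnit_iff_ne_zero]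
  intro h
  have := (Q_det_pos M hδ).1
  rw [h] at this
  simp at this

theorem hs_eq {I J : Type} [Fintype I] [Fintype J] (Y : Matrix I J ℂ) : hs Y = (Y * Yᴴ).trace.re := by
  unfold hs
  rw [Matrix.trace, Complex.re_sum]
  refine Finset.sum_congr rfl fun i _ => ?_
  rw [Matrix.diag_apply, Matrix.mul_apply, Complex.re_sum]
  refine Finset.sum_congr rfl fun j _ => ?_
  rw [Matrix.conjTranspose_apply, Complex.star_def, Complex.mul_conj, Complex.ofReal_re, Complex.normSq_eq_norm_sq]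

theorem hs_nonneg {I J : Type} [Fintype I] [Fintype J] (Y : Matrix I J ℂ) : 0 ≤ hs Y :=
  Finset.sum_nonneg fun _ _ => Finset.sum_nonneg fun _ _ => by positivity

/-- the Hilbert-Schmidt norm of `M* Q⁻¹` -/
theorem hs_Y (M : Matrix P P ℂ) {δ : ℝ} (hδ : 0 < δ) : hs (Mᴴ * (Q M δ)⁻¹) ≤ Fintype.card P / δ ^ 2 := by
  have hQ := Q_posDef M hδ
  have hu := Q_det_unit M hδ
  have hi := hQ.inv
  have hMM : M * Mᴴ = Q M δ - ((δ ^ 2 : ℝ) : ℂ) • (1 : Matrix P P ℂ) := by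
    unfold Q; abel
  -- trace of Q⁻¹
  have h1 : δ ^ 2 * (Q M δ)⁻¹.trace.re ≤ Fintype.card P := by
    have e1 : (M * Mᴴ * (Q M δ)⁻¹).trace = Fintype.card P - ((δ ^ 2 : ℝ) : ℂ) * (Q M δ)⁻¹.trace := by
      rw [hMM, sub_mul, Matrix.mul_nonsing_inv _ hu, Matrix.smul_mul, one_mul, Matrix.trace_sub,
        Matrix.trace_one, Matrix.trace_smul, smul_eq_mul]
    have e2 : 0 ≤ (Mᴴ * (Q M δ)⁻¹ * M).trace :=
      (hi.posSemidef.conjTranspose_mul_mul_same M).trace_nonneg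
    have e3 : (Mᴴ * (Q M δ)⁻¹ * M).trace = (M * Mᴴ * (Q M δ)⁻¹).trace := by
      rw [Matrix.trace_mul_comm, ← Matrix.mul_assoc]
    rw [e3, e1] at e2
    have e4 := (Complex.le_def.1 e2).1
    simp only [Complex.zero_re, Complex.sub_re, Complex.natCast_re, Complex.re_ofReal_mul] at e4
    linarith
  -- hs Y ≤ Tr Q⁻¹
  have h2 : hs (Mᴴ * (Q M δ)⁻¹) ≤ (Q M δ)⁻¹.trace.re := by
    rw [hs_eq]
    have e1 : (Mᴴ * (Q M δ)⁻¹ * (Mᴴ * (Q M δ)⁻¹)ᴴ).trace =
        (Q M δ)⁻¹.trace - ((δ ^ 2 : ℝ) : ℂ) * ((Q M δ)⁻¹ * (Q M δ)⁻¹ᴴ).trace := by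
      rw [Matrix.conjTranspose_mul, Matrix.conjTranspose_conjTranspose, hi.isHermitian.eq]
      rw [Matrix.trace_mul_comm]
      have e2 : (Q M δ)⁻¹ * M * (Mᴴ * (Q M δ)⁻¹) = (Q M δ)⁻¹ * (M * Mᴴ) * (Q M δ)⁻¹ := by
        simp only [Matrix.mul_assoc]
      rw [e2, hMM, mul_sub, Matrix.nonsing_inv_mul _ hu, sub_mul, one_mul, Matrix.mul_smul, mul_one,
        Matrix.smul_mul, Matrix.trace_sub, Matrix.trace_smul, smul_eq_mul]
    rw [e1, Complex.sub_re, Complex.re_ofReal_mul, ← hs_eq]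
    have := hs_nonneg (Q M δ)⁻¹
    nlinarith [sq_nonneg δ, mul_nonneg (sq_nonneg δ) this]
  refine h2.trans ?_
  rw [le_div_iff₀ (by positivity)]
  linarith

/-- smooth curves of matrices -/
theorem Q_entry_contDiff {X : Type} [NormedAddCommGroup X] [NormedSpace ℝ X] {A : X → Matrix P P ℂ}
    (hA : ∀ p q, ContDiff ℝ 1 (fun g => A g p q)) (δ : ℝ) (p q : P) :
    ContDiff ℝ 1 (fun g => Q (A g) δ p q) := by
  unfold Q
  simp only [Matrix.add_apply, Matrix.mul_apply, Matrix.conjTranspose_apply]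
  refine ContDiff.add (ContDiff.sum fun r _ => (hA p r).mul ?_) contDiff_const
  exact Complex.conjCLE.contDiff.comp (hA q r)

/-- the derivative of the log determinant along a line -/
theorem ld_deriv (A B : Matrix P P ℂ) {δ : ℝ} (hδ : 0 < δ) :
    ∃ d : ℝ, HasDerivAt (fun t : ℝ => ld (A + (t : ℂ) • B) δ) d 0 ∧
      |d| ≤ 2 * ‖(B * (Aᴴ * (Q A δ)⁻¹)).trace‖ := by
  obtain ⟨Q1, hQ1⟩ : ∃ Q1 : Matrix P P ℂ, Q1 = B * Aᴴ + A * Bᴴ := ⟨_, rfl⟩
  have hQt : ∀ t : ℝ, Q (A + (t : ℂ) • B) δ = Q A δ + (t : ℂ) • Q1 + ((t : ℂ) ^ 2) • (B * Bᴴ) := by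
    intro t
    unfold Q
    rw [Matrix.conjTranspose_add, Matrix.conjTranspose_smul, Complex.star_def, Complex.conj_ofReal, hQ1]
    simp only [add_mul, mul_add, Matrix.smul_mul, Matrix.mul_smul, smul_add, smul_smul]
    simp only [sq]
    abel
  obtain ⟨G, hG⟩ : ∃ G : ℝ → P → P → ℂ, G = fun (t : ℝ) p q => Q (A + (t : ℂ) • B) δ p q := ⟨_, rfl⟩
  have hG0 : G 0 = fun p q => Q A δ p q := by
    rw [hG]; simp
  have hGd : HasDerivAt G (fun p q => Q1 p q) 0 := by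
    rw [hasDerivAt_pi]
    intro p
    rw [hasDerivAt_pi]
    intro q
    have e1 : (fun t => G t p q) = fun t : ℝ => Q A δ p q + (t : ℂ) * Q1 p q + (t : ℂ) ^ 2 * (B * Bᴴ) p q := by
      funext t
      rw [hG]
      simp only [hQt, Matrix.add_apply, Matrix.smul_apply, smul_eq_mul]
    rw [e1]
    have e2 : HasDerivAt (fun z : ℂ => Q A δ p q + z * Q1 p q + z ^ 2 * (B * Bᴴ) p q) (Q1 p q) ((0:ℝ):ℂ) := by
      have a1 := ((hasDerivAt_id ((0:ℝ):ℂ)).mul_const (Q1 p q)).const_add (Q A δ p q)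
      have a2 := (hasDerivAt_pow 2 ((0:ℝ):ℂ)).mul_const ((B * Bᴴ) p q)
      have a3 := a1.fun_add a2
      simpa using a3
    exact e2.comp_ofReal
  have hu : IsUnit (Matrix.of (G 0)).det := by
    rw [hG0]; exact Q_det_unit A hδ
  have hD : HasDerivAt (fun t => Df (G t)) (fderiv ℝ Df (G 0) (fun p q => Q1 p q)) 0 :=
    HasFDerivAt.comp_hasDerivAt (0:ℝ)
      (contDiff_Df.differentiable (by norm_num)).differentiableAt.hasFDerivAt hGd
  rw [fderiv_Df _ _ hu] at hD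
  have hD2 : (fun t => Df (G t)) = fun t : ℝ => (Q (A + (t : ℂ) • B) δ).det := by
    rw [hG]; rfl
  rw [hD2] at hD
  have hof : Matrix.of (G 0) = Q A δ := by rw [hG0]; rfl
  have hof2 : (Matrix.of fun p q => Q1 p q) = Q1 := rfl
  rw [hof, hof2] at hD
  have hre : HasDerivAt (fun t : ℝ => (Q (A + (t : ℂ) • B) δ).det.re)
      ((Q A δ).det * ((Q A δ)⁻¹ * Q1).trace).re 0 :=
    (Complex.reCLM.hasFDerivAt).comp_hasDerivAt (0:ℝ) hD
  have hpos := Q_det_pos A hδ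
  have h0 : (Q (A + ((0:ℝ) : ℂ) • B) δ) = Q A δ := by simp
  have hlog := hre.log (by rw [h0]; exact hpos.1.ne')
  refine ⟨_, hlog, ?_⟩
  rw [h0, Complex.mul_re, hpos.2, zero_mul, sub_zero, mul_div_assoc, mul_comm, div_mul_cancel₀ _ hpos.1.ne']
  refine (Complex.abs_re_le_norm _).trans ?_
  rw [hQ1, mul_add, Matrix.trace_add]
  have t1 : ((Q A δ)⁻¹ * (B * Aᴴ)).trace = (B * (Aᴴ * (Q A δ)⁻¹)).trace := by
    rw [Matrix.trace_mul_comm, Matrix.mul_assoc]
  have t2 : ((Q A δ)⁻¹ * (A * Bᴴ)).trace = star ((B * (Aᴴ * (Q A δ)⁻¹)).trace) := by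
    rw [← Matrix.trace_conjTranspose]
    congr 1
    rw [Matrix.conjTranspose_mul, Matrix.conjTranspose_mul, Matrix.conjTranspose_conjTranspose,
      (Q_posDef A hδ).inv.isHermitian.eq, Matrix.mul_assoc]
  rw [t1, t2]
  refine (norm_add_le _ _).trans ?_
  rw [norm_star]
  linarith

theorem AN_entry_contDiff (h3 : S_EB) {n m N : ℕ} (a : Fin n → Matrix (Fin m) (Fin m) ℂ)
    (p q : Fin m × Fin N) : ContDiff ℝ 1 (fun g : Fin n × Fin N × Fin N → ℝ => AN a N g p q) := by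
  simp only [AN_expand h3, Matrix.sum_apply, Matrix.smul_apply, smul_eq_mul]
  refine ContDiff.sum fun i _ => ContDiff.mul ?_ contDiff_const
  exact Complex.ofRealCLM.contDiff.comp (contDiff_apply ℝ ℝ i)

theorem ld_contDiff (h3 : S_EB) {n m N : ℕ} (a : Fin n → Matrix (Fin m) (Fin m) ℂ) {δ : ℝ} (hδ : 0 < δ) :
    ContDiff ℝ 1 (fun g : Fin n × Fin N × Fin N → ℝ => ld (AN a N g) δ) := by
  unfold ld
  refine ContDiff.log ?_ (fun g => (Q_det_pos _ hδ).1.ne')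
  have h1 : ContDiff ℝ 1 (fun g : Fin n × Fin N × Fin N → ℝ => Df (fun p q => Q (AN a N g) δ p q)) := by
    refine contDiff_Df.comp ?_
    rw [contDiff_pi]
    intro p
    rw [contDiff_pi]
    intro q
    exact Q_entry_contDiff (fun p q => AN_entry_contDiff h3 a p q) δ p q
  exact Complex.reCLM.contDiff.comp h1

theorem lvar (h0 : S_VAR) (_h1 : S_RES) (_h2 : S_RD) (h3 : S_EB) (_h4 : S_BLK) : S_LVAR := by
  intro n m a hm
  obtain ⟨S, hS⟩ : ∃ S : ℝ, S = ∑ j, hs (a j) := ⟨_, rfl⟩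
  have hS0 : 0 ≤ S := by rw [hS]; exact Finset.sum_nonneg fun _ _ => hs_nonneg _
  have hmR : (1:ℝ) ≤ m := by exact_mod_cast hm
  refine ⟨16 * S, by positivity, fun N δ hN hδ => ?_⟩
  have hNR : (1:ℝ) ≤ N := by exact_mod_cast hN
  have hc2 : ((Real.sqrt N)⁻¹ : ℝ) ^ 2 = (N : ℝ)⁻¹ := by
    rw [inv_pow, Real.sq_sqrt (Nat.cast_nonneg N)]
  -- derivative bound
  have hF := ld_contDiff h3 (N := N) a hδ
  have hder : ∀ (g : Fin n × Fin N × Fin N → ℝ) (i : Fin n × Fin N × Fin N),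
      |fderiv ℝ (fun g : Fin n × Fin N × Fin N → ℝ => ld (AN a N g) δ) g (Pi.single i 1)| ≤
        2 * ((Real.sqrt N)⁻¹ * ‖(Bm a i * ((AN a N g)ᴴ * (Q (AN a N g) δ)⁻¹)).trace‖) := by
    intro g i
    obtain ⟨d, hd1, hd2⟩ := ld_deriv (AN a N g) ((((Real.sqrt N)⁻¹ : ℝ) : ℂ) • Bm a i) hδ
    have hl : HasDerivAt (fun t : ℝ => g + t • (Pi.single i (1:ℝ) : Fin n × Fin N × Fin N → ℝ))
        (Pi.single i 1) 0 := by
      simpa using ((hasDerivAt_id (0:ℝ)).smul_const (Pi.single i (1:ℝ) : Fin n × Fin N × Fin N → ℝ)).const_add g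
    have hfd : HasFDerivAt (fun g : Fin n × Fin N × Fin N → ℝ => ld (AN a N g) δ)
        (fderiv ℝ (fun g : Fin n × Fin N × Fin N → ℝ => ld (AN a N g) δ) g)
        (g + (0:ℝ) • (Pi.single i (1:ℝ) : Fin n × Fin N × Fin N → ℝ)) := by
      have := (hF.differentiable (by norm_num)).differentiableAt.hasFDerivAt (x := g)
      simpa using this
    have h5 := hfd.comp_hasDerivAt (0:ℝ) hl
    have h6 : (fun t : ℝ => ld (AN a N (g + t • (Pi.single i (1:ℝ) : Fin n × Fin N × Fin N → ℝ))) δ) =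
        fun t : ℝ => ld (AN a N g + (t : ℂ) • ((((Real.sqrt N)⁻¹ : ℝ) : ℂ) • Bm a i)) δ := by
      funext t
      congr 1
      rw [AN_expand h3, AN_expand h3]
      have e1 : ∀ k, ((((g + t • (Pi.single i (1:ℝ) : Fin n × Fin N × Fin N → ℝ)) k : ℝ)) : ℂ) •
          ((((Real.sqrt N)⁻¹ : ℝ) : ℂ) • Bm a k) = ((g k : ℝ) : ℂ) • ((((Real.sqrt N)⁻¹ : ℝ) : ℂ) • Bm a k) +
          (if k = i then (t : ℂ) • ((((Real.sqrt N)⁻¹ : ℝ) : ℂ) • Bm a k) else 0) := by
        intro k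
        by_cases hk : k = i
        · subst hk
          simp [add_smul]
        · simp [hk, Pi.single_apply]
      simp_rw [e1]
      rw [Finset.sum_add_distrib, Finset.sum_ite_eq' Finset.univ i]
      simp
    have h7 := (show HasDerivAt (fun t : ℝ => ld (AN a N (g + t • (Pi.single i (1:ℝ) : Fin n × Fin N × Fin N → ℝ))) δ) _ 0 from h5)
    rw [h6] at h7
    rw [h7.unique hd1]
    refine hd2.trans ?_
    rw [Matrix.smul_mul, Matrix.trace_smul, smul_eq_mul, norm_mul, Complex.norm_real, Real.norm_of_nonneg (by positivity)]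
  have hsum : ∀ g : Fin n × Fin N × Fin N → ℝ, ∑ i,
      |fderiv ℝ (fun g : Fin n × Fin N × Fin N → ℝ => ld (AN a N g) δ) g (Pi.single i 1)| ^ 2 ≤
        8 * m * S / δ ^ 2 := by
    intro g
    obtain ⟨Y, hY⟩ : ∃ Y : Matrix (Fin m × Fin N) (Fin m × Fin N) ℂ, Y = (AN a N g)ᴴ * (Q (AN a N g) δ)⁻¹ := ⟨_, rfl⟩
    have hYb : hs Y ≤ (m * N) / δ ^ 2 := by
      have := hs_Y (AN a N g) hδ
      rw [hY]
      simpa using this
    have h5 : ∀ j, ∑ w : Fin N × Fin N, ‖(Bm a (j, w) * Y).trace‖ ^ 2 ≤ 2 * hs (a j) * hs Y := by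
      intro j
      have := (h3 (Fin N)).2.2 (Fin m) (a j) Y
      rw [Fintype.sum_prod_type]
      exact this
    calc ∑ i, |fderiv ℝ (fun g : Fin n × Fin N × Fin N → ℝ => ld (AN a N g) δ) g (Pi.single i 1)| ^ 2
        ≤ ∑ i, 4 * (N : ℝ)⁻¹ * ‖(Bm a i * Y).trace‖ ^ 2 := by
          refine Finset.sum_le_sum fun i _ => ?_
          have := hder g i
          rw [← hY] at this
          calc _ ≤ (2 * ((Real.sqrt N)⁻¹ * ‖(Bm a i * Y).trace‖)) ^ 2 :=
                pow_le_pow_left₀ (abs_nonneg _) this 2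
            _ = 4 * ((Real.sqrt N)⁻¹ : ℝ) ^ 2 * ‖(Bm a i * Y).trace‖ ^ 2 := by ring
            _ = _ := by rw [hc2]
      _ = 4 * (N : ℝ)⁻¹ * ∑ j, ∑ w : Fin N × Fin N, ‖(Bm a (j, w) * Y).trace‖ ^ 2 := by
          rw [← Finset.mul_sum, Fintype.sum_prod_type]
      _ ≤ 4 * (N : ℝ)⁻¹ * ∑ j, 2 * hs (a j) * hs Y := by
          refine mul_le_mul_of_nonneg_left (Finset.sum_le_sum fun j _ => h5 j) (by positivity)
      _ = 8 * (N : ℝ)⁻¹ * S * hs Y := by
          rw [hS, ← Finset.sum_mul, ← Finset.mul_sum]; ring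
      _ ≤ 8 * (N : ℝ)⁻¹ * S * ((m * N) / δ ^ 2) := mul_le_mul_of_nonneg_left hYb (by positivity)
      _ = 8 * m * S / δ ^ 2 := by field_simp
  -- apply S_VAR
  obtain ⟨f, hf⟩ : ∃ f : (Fin n × Fin N × Fin N → ℝ) → ℂ,
    f = fun g => ((ld (AN a N g) δ / (m * N) : ℝ) : ℂ) := ⟨_, rfl⟩
  obtain ⟨V, hV⟩ : ∃ V : ℝ, V = 8 * m * S / δ ^ 2 / (m * N) ^ 2 := ⟨_, rfl⟩
  have hfC : ContDiff ℝ 1 f := by
    rw [hf]
    exact Complex.ofRealCLM.contDiff.comp (hF.div_const _)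
  have hfD : ∀ g i, fderiv ℝ f g (Pi.single i 1) =
      ((fderiv ℝ (fun g : Fin n × Fin N × Fin N → ℝ => ld (AN a N g) δ) g (Pi.single i 1) / (m * N) : ℝ) : ℂ) := by
    intro g i
    have h5 : HasFDerivAt (fun g : Fin n × Fin N × Fin N → ℝ => ld (AN a N g) δ)
        (fderiv ℝ (fun g : Fin n × Fin N × Fin N → ℝ => ld (AN a N g) δ) g) g :=
      (hF.differentiable (by norm_num)).differentiableAt.hasFDerivAt
    have h6 := h5.mul_const ((m * N : ℝ)⁻¹)
    have h7 := (Complex.ofRealCLM.hasFDerivAt (x := ld (AN a N g) δ * (m * N : ℝ)⁻¹)).comp g h6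
    have h8 : f = (Complex.ofRealCLM ∘ fun g : Fin n × Fin N × Fin N → ℝ => ld (AN a N g) δ * (m * N : ℝ)⁻¹) := by
      rw [hf]
      funext g
      simp [div_eq_mul_inv]
    rw [h8, h7.fderiv]
    simp [div_eq_mul_inv, mul_comm]
  obtain ⟨v1, v2, v3⟩ := h0 _ f V hfC (fun g => by
    have h5 : ∑ i, ‖fderiv ℝ f g (Pi.single i 1)‖ ^ 2 =
        (∑ i, |fderiv ℝ (fun g : Fin n × Fin N × Fin N → ℝ => ld (AN a N g) δ) g (Pi.single i 1)| ^ 2) / (m * N) ^ 2 := by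
      rw [Finset.sum_div]
      refine Finset.sum_congr rfl fun i _ => ?_
      rw [hfD, Complex.norm_real, Real.norm_eq_abs, abs_div, div_pow, abs_of_nonneg (by positivity : (0:ℝ) ≤ m * N)]
    rw [h5, hV]
    exact div_le_div_of_nonneg_right (hsum g) (by positivity))
  have hi1 : Integrable (fun g : Fin n × Fin N × Fin N → ℝ => ld (AN a N g) δ / (m * N)) (gam _) := by
    exact v1.re.congr (ae_of_all _ fun g => by rw [hf]; exact Complex.ofReal_re _)
  have hmN : (m * N : ℝ) ≠ 0 := by positivity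
  have hint : ∫ y, f y ∂(gam _) = (((∫ h, ld (AN a N h) δ ∂(gam _)) / (m * N) : ℝ) : ℂ) := by
    rw [hf]
    refine (integral_complex_ofReal (f := fun g : Fin n × Fin N × Fin N → ℝ => ld (AN a N g) δ / (m * N))).trans ?_
    rw [integral_div]
  have hsq : ∀ g, ‖f g - ∫ y, f y ∂(gam _)‖ ^ 2 = (ld (AN a N g) δ / (m * N) -
      (∫ h, ld (AN a N h) δ ∂(gam _)) / (m * N)) ^ 2 := by
    intro g
    rw [hint, hf]
    simp only
    rw [← Complex.ofReal_sub, Complex.norm_real, Real.norm_eq_abs, sq_abs]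
  refine ⟨?_, ?_, ?_⟩
  · have := hi1.mul_const (m * N : ℝ)
    refine this.congr (ae_of_all _ fun g => ?_)
    simp only
    field_simp
  · simp_rw [hsq] at v2
    exact v2
  · simp_rw [hsq] at v3
    refine v3.trans ?_
    rw [hV]
    have e1 : 2 * (8 * m * S / δ ^ 2 / (m * N) ^ 2) = 16 * S / ((N : ℝ) ^ 2 * δ ^ 2) / m := by
      field_simp
      ring
    rw [e1]
    exact div_le_self (by positivity) hmR

end Pool.Agent.W291.GB
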