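import Pool.Agent.W837.GB.Defs

set_option autoImplicit false
open MeasureTheory ProbabilityTheory Filter Topology
open scoped NNReal Matrix ComplexOrder

namespace Pool.Agent.W291.GB
open Pool.Agent.W837.GB

variable {n m N' K : ℕ}

/-- the parameters: constants on the principal block, variables on the border -/
noncomputable def zz (g : Fin n × Fin N' × Fin N' → ℝ) (j : Fin n) :
    Fin N' ⊕ Fin K → Fin N' ⊕ Fin K → MvPolynomial (Bd n N' K) ℂ
  | Sum.inl x, Sum.inl y => MvPolynomial.C ((g (j, x, y) : ℝ) : ℂ)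
  | Sum.inl x, Sum.inr y => MvPolynomial.X (j, Sum.inl (x, y))
  | Sum.inr x, Sum.inl y => MvPolynomial.X (j, Sum.inr (Sum.inl (x, y)))
  | Sum.inr x, Sum.inr y => MvPolynomial.X (j, Sum.inr (Sum.inr (x, y)))

/-- number of border indices -/
def bdry : Fin N' ⊕ Fin K → ℕ
  | Sum.inl _ => 0
  | Sum.inr _ => 1

theorem deg_zz (g : Fin n × Fin N' × Fin N' → ℝ) (j : Fin n) (k l : Fin N' ⊕ Fin K) :
    (zz g j k l).totalDegree ≤ bdry k + bdry l := by
  rcases k with k | k <;> rcases l with l | l <;> simp [zz, bdry, MvPolynomial.totalDegree_X]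

/-- the matrix of polynomials -/
noncomputable def Mz (a : Fin n → Matrix (Fin m) (Fin m) ℂ) (g : Fin n × Fin N' × Fin N' → ℝ) (c : ℂ) :
    Matrix (Fin m × (Fin N' ⊕ Fin K)) (Fin m × (Fin N' ⊕ Fin K)) (MvPolynomial (Bd n N' K) ℂ) :=
  fun p q => ∑ j, MvPolynomial.C (c * a j p.1 q.1) *
    (MvPolynomial.C ((1 + Complex.I) / 2) * zz g j p.2 q.2 + MvPolynomial.C ((1 - Complex.I) / 2) * zz g j q.2 p.2)

theorem deg_Mz (a : Fin n → Matrix (Fin m) (Fin m) ℂ) (g : Fin n × Fin N' × Fin N' → ℝ) (c : ℂ)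
    (p q : Fin m × (Fin N' ⊕ Fin K)) : (Mz a g c p q).totalDegree ≤ bdry p.2 + bdry q.2 := by
  unfold Mz
  refine MvPolynomial.totalDegree_finsetSum_le fun j _ => ?_
  refine (MvPolynomial.totalDegree_mul _ _).trans ?_
  rw [MvPolynomial.totalDegree_C, zero_add]
  refine (MvPolynomial.totalDegree_add _ _).trans (max_le ?_ ?_)
  · refine (MvPolynomial.totalDegree_mul _ _).trans ?_
    rw [MvPolynomial.totalDegree_C, zero_add]
    exact deg_zz g j _ _
  · refine (MvPolynomial.totalDegree_mul _ _).trans ?_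
    rw [MvPolynomial.totalDegree_C, zero_add]
    exact (deg_zz g j _ _).trans (by omega)

theorem deg_det (a : Fin n → Matrix (Fin m) (Fin m) ℂ) (g : Fin n × Fin N' × Fin N' → ℝ) (c : ℂ) :
    (Mz (K := K) a g c).det.totalDegree ≤ 2 * m * K := by
  rw [Matrix.det_apply]
  refine MvPolynomial.totalDegree_finsetSum_le fun σ _ => ?_
  have h1 : (Equiv.Perm.sign σ • ∏ i, Mz (K := K) a g c (σ i) i).totalDegree ≤
      (∏ i, Mz (K := K) a g c (σ i) i).totalDegree := by
    rcases Int.units_eq_one_or (Equiv.Perm.sign σ) with h | h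
    · rw [h, one_smul]
    · rw [h, Units.neg_smul, one_smul, MvPolynomial.totalDegree_neg]
  refine h1.trans ((MvPolynomial.totalDegree_finsetProd _ _).trans ?_)
  calc ∑ i, (Mz (K := K) a g c (σ i) i).totalDegree
      ≤ ∑ i : Fin m × (Fin N' ⊕ Fin K), (bdry (σ i).2 + bdry i.2) :=
        Finset.sum_le_sum fun i _ => deg_Mz a g c _ _
    _ = (∑ i : Fin m × (Fin N' ⊕ Fin K), bdry (σ i).2) + ∑ i : Fin m × (Fin N' ⊕ Fin K), bdry i.2 :=
        Finset.sum_add_distrib
    _ = (∑ i : Fin m × (Fin N' ⊕ Fin K), bdry i.2) + ∑ i : Fin m × (Fin N' ⊕ Fin K), bdry i.2 := by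
        congr 1
        exact Equiv.sum_comp σ (fun i : Fin m × (Fin N' ⊕ Fin K) => bdry i.2)
    _ = 2 * m * K := by
        have : ∑ i : Fin m × (Fin N' ⊕ Fin K), bdry i.2 = m * K := by
          rw [Fintype.sum_prod_type]
          simp [Fintype.sum_sum_type, bdry]
        rw [this]; ring
    _ ≤ 2 * m * K := le_rfl

theorem Iid1 : ((1 + Complex.I) / 2) * ((1 - Complex.I) / 2) = 1 / 2 := by
  have := Complex.I_sq
  linear_combination (-1/4) * this

theorem Iid2 : ((1 + Complex.I) / 2) * ((1 + Complex.I) / 2) + ((1 - Complex.I) / 2) * ((1 - Complex.I) / 2) = 0 := by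
  have := Complex.I_sq
  linear_combination (1/2) * this

theorem norm_half_add : ‖(1 + Complex.I) / 2‖ ≤ 1 := by
  rw [norm_div]
  have : ‖(1 + Complex.I)‖ ≤ 2 := (norm_add_le _ _).trans (by simp; norm_num)
  simp only [Complex.norm_ofNat]
  linarith

theorem norm_half_sub : ‖(1 - Complex.I) / 2‖ ≤ 1 := by
  rw [norm_div]
  have : ‖(1 - Complex.I)‖ ≤ 2 := (norm_sub_le _ _).trans (by simp; norm_num)
  simp only [Complex.norm_ofNat]
  linarith

theorem poly : S_POLY := by
  intro n m N' K a g' hN'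
  obtain ⟨c, hc⟩ : ∃ c : ℂ, c = (((Real.sqrt N')⁻¹ : ℝ) : ℂ) := ⟨_, rfl⟩
  have hNR : (0:ℝ) < Real.sqrt N' := Real.sqrt_pos.2 (by exact_mod_cast hN')
  have hc0 : c ≠ 0 := by
    rw [hc]
    exact_mod_cast (inv_pos.2 hNR).ne'
  have hcn : ‖c⁻¹‖ = Real.sqrt N' := by
    rw [hc, norm_inv, Complex.norm_real, Real.norm_of_nonneg (by positivity), inv_inv]
  refine ⟨(Mz (K := K) a g' c).det, deg_det a g' c, fun h => ?_, fun f g d B hf hg hd => ?_⟩
  · rw [RingHom.map_det, ← hc]
    congr 1
    ext ⟨x, k⟩ ⟨y, l⟩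
    rw [RingHom.mapMatrix_apply, Matrix.map_apply]
    unfold Mz W
    rw [map_sum, Matrix.smul_apply, Matrix.sum_apply, smul_eq_mul, Finset.mul_sum]
    refine Finset.sum_congr rfl fun j _ => ?_
    simp only [map_mul, map_add, MvPolynomial.eval_C, Matrix.kronecker, Matrix.kroneckerMap_apply, Hm]
    have e1 : ∀ k l : Fin N' ⊕ Fin K, (MvPolynomial.eval fun i => ((h i : ℝ) : ℂ)) (zz g' j k l) =
        ((glue g' h (j, k, l) : ℝ) : ℂ) := by
      intro k l
      rcases k with k | k <;> rcases l with l | l <;> simp [zz, glue]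
    rw [e1, e1]
    push_cast
    ring
  · obtain ⟨T, hT⟩ : ∃ T : Fin n → (Fin N' ⊕ Fin K) → (Fin N' ⊕ Fin K) → ℂ,
      T = fun j k l => Matrix.fromBlocks 0 (f j) (g j) (d j) k l := ⟨_, rfl⟩
    have hB : ∀ (j : Fin n) (k l : Fin N' ⊕ Fin K), (1 ≤ bdry k + bdry l) → ‖T j k l‖ ≤ B := by
      intro j k l hkl
      rw [hT]
      rcases k with k | k <;> rcases l with l | l
      · simp [bdry] at hkl
      · simpa using hf j k l
      · simpa using hg j k l
      · simpa using hd j k l
    obtain ⟨zf, hzf⟩ : ∃ zf : Fin n → (Fin N' ⊕ Fin K) → (Fin N' ⊕ Fin K) → ℂ,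
      zf = fun j k l => c⁻¹ * (((1 - Complex.I) / 2) * T j k l + ((1 + Complex.I) / 2) * T j l k) := ⟨_, rfl⟩
    have hzb : ∀ (j : Fin n) (k l : Fin N' ⊕ Fin K), (1 ≤ bdry k + bdry l) → ‖zf j k l‖ ≤ 2 * B * Real.sqrt N' := by
      intro j k l hkl
      have b1 := hB j k l hkl
      have b2 := hB j l k (by omega)
      rw [hzf]
      simp only
      rw [norm_mul, hcn]
      have b3 : ‖(1 - Complex.I) / 2 * T j k l + (1 + Complex.I) / 2 * T j l k‖ ≤ 2 * B := by
        refine (norm_add_le _ _).trans ?_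
        rw [norm_mul, norm_mul]
        have c1 : ‖(1 - Complex.I) / 2‖ * ‖T j k l‖ ≤ 1 * B :=
          mul_le_mul norm_half_sub b1 (norm_nonneg _) zero_le_one
        have c2 : ‖(1 + Complex.I) / 2‖ * ‖T j l k‖ ≤ 1 * B :=
          mul_le_mul norm_half_add b2 (norm_nonneg _) zero_le_one
        linarith
      calc Real.sqrt N' * ‖(1 - Complex.I) / 2 * T j k l + (1 + Complex.I) / 2 * T j l k‖
          ≤ Real.sqrt N' * (2 * B) := mul_le_mul_of_nonneg_left b3 hNR.le
        _ = _ := by ring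
    obtain ⟨z, hz⟩ : ∃ z : Bd n N' K → ℂ, z = fun i => match i with
      | (j, Sum.inl (x, y)) => zf j (Sum.inl x) (Sum.inr y)
      | (j, Sum.inr (Sum.inl (x, y))) => zf j (Sum.inr x) (Sum.inl y)
      | (j, Sum.inr (Sum.inr (x, y))) => zf j (Sum.inr x) (Sum.inr y) := ⟨_, rfl⟩
    refine ⟨z, ?_, ?_⟩
    · rintro ⟨j, (⟨x, y⟩ | (⟨x, y⟩ | ⟨x, y⟩))⟩
      · rw [hz]; exact hzb j _ _ (by simp [bdry])
      · rw [hz]; exact hzb j _ _ (by simp [bdry])
      · rw [hz]; exact hzb j _ _ (by simp [bdry])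
    · have ez : ∀ (j : Fin n) (k l : Fin N' ⊕ Fin K), (1 ≤ bdry k + bdry l) →
          (MvPolynomial.eval z) (zz g' j k l) = zf j k l := by
        intro j k l hkl
        rcases k with k | k <;> rcases l with l | l
        · simp [bdry] at hkl
        · simp [zz, hz]
        · simp [zz, hz]
        · simp [zz, hz]
      have ent : ∀ (j : Fin n) (k l : Fin N' ⊕ Fin K), (1 ≤ bdry k + bdry l) →
          c * ((1 + Complex.I) / 2 * (MvPolynomial.eval z) (zz g' j k l) +
            (1 - Complex.I) / 2 * (MvPolynomial.eval z) (zz g' j l k)) = T j k l := by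
        intro j k l hkl
        rw [ez j k l hkl, ez j l k (by omega), hzf]
        simp only
        have i1 := Iid1
        have i2 := Iid2
        have e1 : c * ((1 + Complex.I) / 2 * (c⁻¹ * ((1 - Complex.I) / 2 * T j k l + (1 + Complex.I) / 2 * T j l k)) +
            (1 - Complex.I) / 2 * (c⁻¹ * ((1 - Complex.I) / 2 * T j l k + (1 + Complex.I) / 2 * T j k l))) =
            (c * c⁻¹) * ((1 + Complex.I) / 2 * ((1 - Complex.I) / 2) * T j k l +
              ((1 + Complex.I) / 2 * ((1 + Complex.I) / 2) + (1 - Complex.I) / 2 * ((1 - Complex.I) / 2)) * T j l k +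
              (1 + Complex.I) / 2 * ((1 - Complex.I) / 2) * T j k l) := by ring
        rw [e1, mul_inv_cancel₀ hc0, i1, i2]
        ring
      rw [RingHom.map_det, ← Matrix.det_reindex_self (Equiv.prodSumDistrib (Fin m) (Fin N') (Fin K))]
      congr 1
      ext p q
      rw [Matrix.reindex_apply, Matrix.submatrix_apply, RingHom.mapMatrix_apply, Matrix.map_apply]
      rcases p with ⟨x, k⟩ | ⟨x, k⟩ <;> rcases q with ⟨y, l⟩ | ⟨y, l⟩
      · rw [Matrix.fromBlocks_apply₁₁]
        unfold AN Mz W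
        rw [map_sum, Matrix.smul_apply, Matrix.sum_apply, smul_eq_mul, Finset.mul_sum]
        refine Finset.sum_congr rfl fun j _ => ?_
        simp only [map_mul, map_add, MvPolynomial.eval_C, Matrix.kronecker, Matrix.kroneckerMap_apply, Hm,
          Equiv.prodSumDistrib_symm_apply_left, zz, hc]
        push_cast
        ring
      · rw [Matrix.fromBlocks_apply₁₂]
        unfold Mz
        rw [map_sum, Matrix.sum_apply]
        refine Finset.sum_congr rfl fun j _ => ?_
        simp only [map_mul, map_add, MvPolynomial.eval_C, Matrix.kronecker, Matrix.kroneckerMap_apply,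
          Equiv.prodSumDistrib_symm_apply_left, Equiv.prodSumDistrib_symm_apply_right]
        have := ent j (Sum.inl k) (Sum.inr l) (by simp [bdry])
        rw [hT] at this
        simp only [Matrix.fromBlocks_apply₁₂] at this
        rw [← this]; ring
      · rw [Matrix.fromBlocks_apply₂₁]
        unfold Mz
        rw [map_sum, Matrix.sum_apply]
        refine Finset.sum_congr rfl fun j _ => ?_
        simp only [map_mul, map_add, MvPolynomial.eval_C, Matrix.kronecker, Matrix.kroneckerMap_apply,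
          Equiv.prodSumDistrib_symm_apply_left, Equiv.prodSumDistrib_symm_apply_right]
        have := ent j (Sum.inr k) (Sum.inl l) (by simp [bdry])
        rw [hT] at this
        simp only [Matrix.fromBlocks_apply₂₁] at this
        rw [← this]; ring
      · rw [Matrix.fromBlocks_apply₂₂]
        unfold Mz
        rw [map_sum, Matrix.sum_apply]
        refine Finset.sum_congr rfl fun j _ => ?_
        simp only [map_mul, map_add, MvPolynomial.eval_C, Matrix.kronecker, Matrix.kroneckerMap_apply,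
          Equiv.prodSumDistrib_symm_apply_right]
        have := ent j (Sum.inr k) (Sum.inr l) (by simp [bdry])
        rw [hT] at this
        simp only [Matrix.fromBlocks_apply₂₂] at this
        rw [← this]; ring

end Pool.Agent.W291.GB
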