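import Pool.Agent.W291.GB.Base

set_option autoImplicit false
open MeasureTheory ProbabilityTheory Filter Topology
open scoped NNReal Matrix ComplexOrder

namespace Pool.Agent.W291.GB
open Pool.Agent.W837.GB

set_option linter.unusedSectionVars false
variable {ν : Type} [Fintype ν] [DecidableEq ν]

theorem AN_herm (h3 : S_EB) {n N : ℕ} (α : Fin n → Matrix ν ν ℂ) (hα : ∀ j, (α j).IsHermitian)
    (g : Fin n × Fin N × Fin N → ℝ) : (AN α N g).IsHermitian := by
  unfold AN W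
  rw [Matrix.IsHermitian, Matrix.conjTranspose_smul, Matrix.conjTranspose_sum]
  congr 1
  · simp
  · refine Finset.sum_congr rfl fun j _ => ?_
    have h1 := ((h3 (Fin N)).1 (fun k l => g (j, k, l))).1
    rw [Matrix.kronecker, Matrix.conjTranspose_kronecker]
    rw [(hα j).eq, h1.eq]

theorem AN_expand (h3 : S_EB) {n N : ℕ} (α : Fin n → Matrix ν ν ℂ) (g : Fin n × Fin N × Fin N → ℝ) :
    AN α N g = ∑ i : Fin n × Fin N × Fin N, ((g i : ℝ) : ℂ) • ((((Real.sqrt N)⁻¹ : ℝ) : ℂ) • Bm α i) := by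
  unfold AN
  rw [W_expand h3, Finset.smul_sum]
  refine Finset.sum_congr rfl fun i _ => ?_
  rw [smul_comm]

theorem res_eq (h1 : S_RES) {ι : Type} [Fintype ι] [DecidableEq ι] (H : Matrix ι ι ℂ) (δ : ℝ)
    (hH : H.IsHermitian) (hδ : 0 < δ) : H * res H δ = 1 + ((δ : ℂ) * Complex.I) • res H δ := by
  have h2 := Matrix.mul_nonsing_inv _ (h1 ι H δ hH hδ).1
  rw [← res, sub_mul, Matrix.smul_mul, one_mul] at h2
  rw [← h2]
  abel

theorem R_BC (h1 : S_RES) (h2 : S_RD) (h3 : S_EB) {n N : ℕ} (α : Fin n → Matrix ν ν ℂ)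
    (hα : ∀ j, (α j).IsHermitian) (hN : 1 ≤ N) {δ : ℝ} (hδ : 0 < δ) (p q : ν × Fin N) :
    BC (fun g : Fin n × Fin N × Fin N → ℝ => res (AN α N g) δ p q) :=
  ⟨(h2 ν n α N δ hα hN hδ p q).1.continuous, δ⁻¹, fun g => (h1 _ _ δ (AN_herm h3 α hα g) hδ).2.1 p q⟩

/-- integration by parts for the entries of `H R` -/
theorem ibp_HR (h0 : S_IBP) (h1 : S_RES) (h2 : S_RD) (h3 : S_EB) {n N : ℕ} (α : Fin n → Matrix ν ν ℂ)
    (hα : ∀ j, (α j).IsHermitian) (hN : 1 ≤ N) {δ : ℝ} (hδ : 0 < δ) (p q : ν × Fin N) :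
    ∫ g, (AN α N g * res (AN α N g) δ) p q ∂(gam _) =
      ∑ i : Fin n × Fin N × Fin N, ∫ g, -((((Real.sqrt N)⁻¹ : ℝ) : ℂ) ^ 2 *
        (Bm α i * (res (AN α N g) δ * Bm α i * res (AN α N g) δ)) p q) ∂(gam _) := by
  obtain ⟨c, hc⟩ : ∃ c : ℂ, c = (((Real.sqrt N)⁻¹ : ℝ) : ℂ) := ⟨_, rfl⟩
  obtain ⟨R, hR⟩ : ∃ R : (Fin n × Fin N × Fin N → ℝ) → Matrix (ν × Fin N) (ν × Fin N) ℂ,
    R = fun g => res (AN α N g) δ := ⟨_, rfl⟩
  have hRBC : ∀ r s, BC (fun g => R g r s) := by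
    rw [hR]; exact R_BC h1 h2 h3 α hα hN hδ
  have hRb : ∀ g r s, ‖R g r s‖ ≤ δ⁻¹ := by
    rw [hR]; intro g r s
    exact (h1 _ _ δ (AN_herm h3 α hα g) hδ).2.1 r s
  have hRC : ∀ r s, ContDiff ℝ 1 (fun g => R g r s) := by
    rw [hR]; exact fun r s => (h2 ν n α N δ hα hN hδ r s).1
  have hRD : ∀ r s g i, fderiv ℝ (fun g => R g r s) g (Pi.single i 1) = -c * (R g * Bm α i * R g) r s := by
    rw [hR, hc]; intro r s g i
    exact (h2 ν n α N δ hα hN hδ r s).2 g i.1 i.2.1 i.2.2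
  have hgoal : (∫ g, (AN α N g * res (AN α N g) δ) p q ∂(gam _)) = ∫ g, (AN α N g * R g) p q ∂(gam _) := by
    rw [hR]
  have hgoal2 : (∑ i : Fin n × Fin N × Fin N, ∫ g, -((((Real.sqrt N)⁻¹ : ℝ) : ℂ) ^ 2 *
        (Bm α i * (res (AN α N g) δ * Bm α i * res (AN α N g) δ)) p q) ∂(gam _)) =
      ∑ i : Fin n × Fin N × Fin N, ∫ g, -(c ^ 2 * (Bm α i * (R g * Bm α i * R g)) p q) ∂(gam _) := by
    rw [hR, hc]
  rw [hgoal, hgoal2]
  -- derivative bound
  obtain ⟨C0, hC0⟩ : ∃ C0 : ℝ, ∀ r s g, ‖fderiv ℝ (fun g => R g r s) g‖ ≤ C0 := by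
    obtain ⟨C1, hC1⟩ : ∃ C1 : ℝ, C1 = ∑ i : Fin n × Fin N × Fin N, ‖c‖ *
      (∑ r' : ν × Fin N, (∑ s' : ν × Fin N, δ⁻¹ * ‖Bm α i s' r'‖) * δ⁻¹) := ⟨_, rfl⟩
    refine ⟨C1, fun r s g => (norm_le_sum_single _).trans ?_⟩
    rw [hC1]
    refine Finset.sum_le_sum fun i _ => ?_
    rw [hRD, norm_mul, norm_neg]
    refine mul_le_mul_of_nonneg_left ?_ (norm_nonneg _)
    rw [Matrix.mul_apply]
    refine (norm_sum_le _ _).trans (Finset.sum_le_sum fun r' _ => ?_)
    rw [norm_mul]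
    refine mul_le_mul ?_ (hRb g r' s) (norm_nonneg _) ?_
    · rw [Matrix.mul_apply]
      refine (norm_sum_le _ _).trans (Finset.sum_le_sum fun s' _ => ?_)
      rw [norm_mul]
      exact mul_le_mul_of_nonneg_right (hRb g r s') (norm_nonneg _)
    · exact Finset.sum_nonneg fun s' _ => by positivity
  have hpt : ∀ g, (AN α N g * R g) p q =
      ∑ i : Fin n × Fin N × Fin N, ((g i : ℝ) : ℂ) * (∑ r, c * Bm α i p r * R g r q) := by
    intro g
    rw [AN_expand h3, ← hc, Finset.sum_mul, Matrix.sum_apply]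
    refine Finset.sum_congr rfl fun i _ => ?_
    rw [Matrix.smul_mul, Matrix.smul_mul, Matrix.smul_apply, Matrix.smul_apply, Matrix.mul_apply,
      smul_eq_mul, smul_eq_mul, Finset.mul_sum]
    congr 1
    exact Finset.sum_congr rfl fun r _ => by ring
  have hfBC : ∀ i, BC (fun g => ∑ r, c * Bm α i p r * R g r q) := fun i =>
    BC.sum _ (fun r => (BC.const _).mul (hRBC r q))
  simp_rw [hpt]
  rw [integral_finsetSum _ (fun i _ => (hfBC i).coord_mul i)]
  refine Finset.sum_congr rfl fun i _ => ?_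
  have hfd : ∀ g, HasFDerivAt (fun g => ∑ r, c * Bm α i p r * R g r q)
      (∑ r, (c * Bm α i p r) • fderiv ℝ (fun g => R g r q) g) g := by
    intro g
    refine HasFDerivAt.fun_sum fun r _ => ?_
    have := ((hRC r q).differentiable (by norm_num)).differentiableAt.hasFDerivAt (x := g)
    exact this.const_mul (c * Bm α i p r)
  obtain ⟨C2, hC2⟩ := (hfBC i).2
  rw [h0 _ _ (max C2 (∑ r : ν × Fin N, ‖c * Bm α i p r‖ * C0)) i ?_ (fun g => (hC2 g).trans (le_max_left _ _)) ?_]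
  · congr 1
    funext g
    rw [(hfd g).fderiv]
    rw [sum_apply]
    simp only [smul_apply, hRD, smul_eq_mul]
    rw [Matrix.mul_apply (M := Bm α i), Finset.mul_sum, ← Finset.sum_neg_distrib]
    exact Finset.sum_congr rfl fun r _ => by ring
  · exact ContDiff.sum fun r _ => contDiff_const.mul (hRC r q)
  · intro g
    rw [(hfd g).fderiv]
    refine le_trans ?_ (le_max_right _ _)
    refine (norm_sum_le _ _).trans (Finset.sum_le_sum fun r _ => ?_)
    rw [norm_smul]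
    exact mul_le_mul_of_nonneg_left (hC0 r q g) (norm_nonneg _)

/-- a block of a matrix on `ν × Fin N` -/
def bk {N : ℕ} (R : Matrix (ν × Fin N) (ν × Fin N) ℂ) (x' y' : ν) : Matrix (Fin N) (Fin N) ℂ :=
  fun s' t' => R (x', s') (y', t')

/-- the quadratic expression -/
theorem sum_BRB (h3 : S_EB) {n N : ℕ} (α : Fin n → Matrix ν ν ℂ) (hN : 1 ≤ N)
    (R : Matrix (ν × Fin N) (ν × Fin N) ℂ) :
    ∑ i, Bm α i * R * Bm α i = (N : ℂ) • Matrix.kronecker (∑ j, α j * pt R * α j) (1 : Matrix (Fin N) (Fin N) ℂ) := by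
  have hN0 : (N : ℂ) ≠ 0 := by exact_mod_cast (by omega : N ≠ 0)
  ext ⟨x, s⟩ ⟨y, t⟩
  rw [Matrix.sum_apply, Fintype.sum_prod_type]
  have key : ∀ j, ∑ w : Fin N × Fin N, (Bm α (j, w) * R * Bm α (j, w)) (x, s) (y, t) =
      (N : ℂ) * ((α j * pt R * α j) x y * (1 : Matrix (Fin N) (Fin N) ℂ) s t) := by
    intro j
    have e1 : ∀ w : Fin N × Fin N, (Bm α (j, w) * R * Bm α (j, w)) (x, s) (y, t) =
        ∑ y', ∑ x', (α j x x' * α j y' y) * ((Eb w.1 w.2 * bk R x' y' * Eb w.1 w.2) s t) := by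
      intro w
      simp only [Matrix.mul_apply, Fintype.sum_prod_type, Bm, Matrix.kronecker, Matrix.kroneckerMap_apply,
        Finset.sum_mul, Finset.mul_sum, bk]
      refine Finset.sum_congr rfl fun y' _ => ?_
      rw [Finset.sum_comm]
      refine Finset.sum_congr rfl fun x' _ => Finset.sum_congr rfl fun t' _ => Finset.sum_congr rfl fun s' _ => ?_
      ring
    simp_rw [e1]
    rw [Finset.sum_comm]
    simp_rw [Finset.sum_comm (s := (Finset.univ : Finset (Fin N × Fin N)))]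
    simp_rw [← Finset.mul_sum]
    have e2 : ∀ x' y', ∑ w : Fin N × Fin N, (Eb w.1 w.2 * bk R x' y' * Eb w.1 w.2) s t = (N : ℂ) * (pt R x' y' * (1 : Matrix (Fin N) (Fin N) ℂ) s t) := by
      intro x' y'
      have h := congrFun (congrFun ((h3 (Fin N)).2.1 (bk R x' y')) s) t
      rw [Fintype.sum_prod_type]
      simp only [Matrix.sum_apply] at h
      rw [h, Matrix.smul_apply, smul_eq_mul, pt, Matrix.trace]
      simp only [Matrix.diag_apply, bk]
      rw [← mul_assoc, ← mul_assoc, mul_inv_cancel₀ hN0, one_mul]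
    simp_rw [e2]
    simp only [Matrix.mul_apply, Finset.sum_mul, Finset.mul_sum]
    refine Finset.sum_congr rfl fun y' _ => Finset.sum_congr rfl fun x' _ => ?_
    ring
  simp_rw [key]
  rw [Matrix.smul_apply, smul_eq_mul, Matrix.kronecker, Matrix.kroneckerMap_apply, Matrix.sum_apply,
    Finset.sum_mul, Finset.mul_sum]

/-- averaging of `(K ⊗ 1) R` -/
theorem sum_diag {N : ℕ} (hN : 1 ≤ N) (K : Matrix ν ν ℂ) (R : Matrix (ν × Fin N) (ν × Fin N) ℂ) (x y : ν) :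
    ∑ s, (Matrix.kronecker K (1 : Matrix (Fin N) (Fin N) ℂ) * R) (x, s) (y, s) = (N : ℂ) * (K * pt R) x y := by
  have hN0 : (N : ℂ) ≠ 0 := by exact_mod_cast (by omega : N ≠ 0)
  simp only [Matrix.mul_apply, Fintype.sum_prod_type, Matrix.kronecker, Matrix.kroneckerMap_apply, pt,
    Finset.mul_sum]
  rw [Finset.sum_comm]
  refine Finset.sum_congr rfl fun x' _ => ?_
  simp only [Matrix.one_apply, mul_ite, mul_one, mul_zero, ite_mul, zero_mul]
  simp only [Finset.sum_ite_eq, Finset.mem_univ, if_true]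
  refine Finset.sum_congr rfl fun s _ => ?_
  field_simp

theorem sde (h0 : S_IBP) (h1 : S_RES) (h2 : S_RD) (h3 : S_EB) : S_SDE := by
  intro ν _ _ n α N δ hα hN hδ x y
  have hN0 : (N : ℂ) ≠ 0 := by exact_mod_cast (by omega : N ≠ 0)
  have hc2 : (((Real.sqrt N)⁻¹ : ℝ) : ℂ) ^ 2 * (N : ℂ) = 1 := by
    have : ((Real.sqrt N)⁻¹ : ℝ) ^ 2 * (N : ℝ) = 1 := by
      rw [inv_pow, Real.sq_sqrt (Nat.cast_nonneg N)]
      exact inv_mul_cancel₀ (by exact_mod_cast (by omega : N ≠ 0))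
    exact_mod_cast congrArg (fun t : ℝ => (t : ℂ)) this
  have hRBC := R_BC h1 h2 h3 α hα hN hδ
  have hpt : ∀ a b, BC (fun g : Fin n × Fin N × Fin N → ℝ => pt (res (AN α N g) δ) a b) := by
    intro a b
    unfold pt
    exact (BC.const _).mul (BC.sum _ (fun k => hRBC (a, k) (b, k)))
  have hcst : ∀ (I J : Type) (M : Matrix I J ℂ) (a : I) (b : J),
      BC (fun _ : Fin n × Fin N × Fin N → ℝ => M a b) := fun I J M a b => BC.const _
  -- left hand side
  have e1 : ∑ s, ∫ g, (AN α N g * res (AN α N g) δ) (x, s) (y, s) ∂(gam _) =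
      (N : ℂ) * ((1 : Matrix ν ν ℂ) x y + (δ : ℂ) * Complex.I * ∫ g, pt (res (AN α N g) δ) x y ∂(gam _)) := by
    have e2 : ∀ s : Fin N, ∫ g, (AN α N g * res (AN α N g) δ) (x, s) (y, s) ∂(gam _) =
        (1 : Matrix ν ν ℂ) x y + (δ : ℂ) * Complex.I * ∫ g, res (AN α N g) δ (x, s) (y, s) ∂(gam _) := by
      intro s
      have e3 : ∀ g, (AN α N g * res (AN α N g) δ) (x, s) (y, s) =
          (1 : Matrix ν ν ℂ) x y + (δ : ℂ) * Complex.I * res (AN α N g) δ (x, s) (y, s) := by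
        intro g
        rw [res_eq h1 _ δ (AN_herm h3 α hα g) hδ]
        simp [Matrix.add_apply, Matrix.one_apply]
      simp_rw [e3]
      rw [integral_add (integrable_const _) ((hRBC _ _).integrable.const_mul _), integral_const_mul]
      simp
    simp_rw [e2]
    rw [Finset.sum_add_distrib, ← Finset.mul_sum, ← integral_finsetSum _ (fun s _ => (hRBC _ _).integrable)]
    have e4 : ∀ g : Fin n × Fin N × Fin N → ℝ, pt (res (AN α N g) δ) x y = (N : ℂ)⁻¹ * ∑ s, res (AN α N g) δ (x, s) (y, s) :=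
      fun g => rfl
    simp_rw [e4]
    rw [integral_const_mul]
    simp only [Finset.sum_const, Finset.card_univ, Fintype.card_fin, nsmul_eq_mul]
    field_simp
  -- right hand side
  have hBR : ∀ (i : Fin n × Fin N × Fin N) (p q : ν × Fin N), BC (fun g : Fin n × Fin N × Fin N → ℝ =>
      (Bm α i * (res (AN α N g) δ * Bm α i * res (AN α N g) δ)) p q) := fun i p q =>
    BC.mulM (hcst _ _ (Bm α i)) (BC.mulM (BC.mulM hRBC (hcst _ _ (Bm α i))) hRBC) p q
  have e5 : ∑ s, ∫ g, (AN α N g * res (AN α N g) δ) (x, s) (y, s) ∂(gam _) =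
      -((N : ℂ) * ∫ g, (∑ j, α j * pt (res (AN α N g) δ) * α j * pt (res (AN α N g) δ)) x y ∂(gam _)) := by
    simp_rw [ibp_HR h0 h1 h2 h3 α hα hN hδ]
    have hint : ∀ (s : Fin N) (i : Fin n × Fin N × Fin N), Integrable (fun g => -((((Real.sqrt N)⁻¹ : ℝ) : ℂ) ^ 2 *
        (Bm α i * (res (AN α N g) δ * Bm α i * res (AN α N g) δ)) (x, s) (y, s))) (gam _) := fun s i =>
      ((hBR i _ _).integrable.const_mul _).neg
    simp_rw [← integral_finsetSum _ (fun i _ => hint _ i)]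
    rw [← integral_finsetSum _ (fun s _ => integrable_finsetSum _ (fun i _ => hint s i)), ← integral_const_mul,
      ← integral_neg]
    congr 1
    funext g
    obtain ⟨R, hR⟩ : ∃ R : Matrix (ν × Fin N) (ν × Fin N) ℂ, R = res (AN α N g) δ := ⟨_, rfl⟩
    rw [← hR]
    have e6 : ∀ s : Fin N, ∑ i : Fin n × Fin N × Fin N, -((((Real.sqrt N)⁻¹ : ℝ) : ℂ) ^ 2 * (Bm α i * (R * Bm α i * R)) (x, s) (y, s)) =
        -(Matrix.kronecker (∑ j, α j * pt R * α j) (1 : Matrix (Fin N) (Fin N) ℂ) * R) (x, s) (y, s) := by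
      intro s
      rw [Finset.sum_neg_distrib, ← Finset.mul_sum]
      have e7 : ∑ i : Fin n × Fin N × Fin N, (Bm α i * (R * Bm α i * R)) (x, s) (y, s) =
          ((N : ℂ) • (Matrix.kronecker (∑ j, α j * pt R * α j) (1 : Matrix (Fin N) (Fin N) ℂ) * R)) (x, s) (y, s) := by
        rw [← Matrix.sum_apply, ← Matrix.smul_mul, ← sum_BRB h3 α hN R, Finset.sum_mul]
        simp only [Matrix.mul_assoc]
      rw [e7, Matrix.smul_apply, smul_eq_mul, ← mul_assoc, hc2, one_mul]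
    simp_rw [e6]
    rw [Finset.sum_neg_distrib, sum_diag hN]
    congr 2
    rw [Finset.sum_mul]
  rw [e1] at e5
  have e8 : (N : ℂ) * ((∫ g, (∑ j, α j * pt (res (AN α N g) δ) * α j * pt (res (AN α N g) δ)) x y ∂(gam _)) +
      (δ : ℂ) * Complex.I * (∫ g, pt (res (AN α N g) δ) x y ∂(gam _)) + (1 : Matrix ν ν ℂ) x y) = 0 := by
    linear_combination e5
  exact (mul_eq_zero.1 e8).resolve_left hN0

end Pool.Agent.W291.GB
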