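import Pool.Agent.W837.GB.Defs

set_option autoImplicit false
open MeasureTheory ProbabilityTheory Filter Topology
open scoped NNReal Matrix ComplexOrder

namespace Pool.Agent.W291.GB
open Pool.Agent.W837.GB

instance {ι : Type} [Fintype ι] : IsProbabilityMeasure (gam ι) := by
  unfold gam; infer_instance

/-- bounded and continuous -/
def BC {X : Type} [TopologicalSpace X] (f : X → ℂ) : Prop := Continuous f ∧ ∃ C : ℝ, ∀ g, ‖f g‖ ≤ C

theorem BC.const {X : Type} [TopologicalSpace X] (c : ℂ) : BC (fun _ : X => c) :=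
  ⟨continuous_const, ‖c‖, fun _ => le_rfl⟩

theorem BC.add {X : Type} [TopologicalSpace X] {f g : X → ℂ} (hf : BC f) (hg : BC g) :
    BC (fun x => f x + g x) := by
  obtain ⟨h1, C, h2⟩ := hf
  obtain ⟨h3, D, h4⟩ := hg
  exact ⟨h1.add h3, C + D, fun x => (norm_add_le _ _).trans (add_le_add (h2 x) (h4 x))⟩

theorem BC.mul {X : Type} [TopologicalSpace X] {f g : X → ℂ} (hf : BC f) (hg : BC g) :
    BC (fun x => f x * g x) := by
  obtain ⟨h1, C, h2⟩ := hf
  obtain ⟨h3, D, h4⟩ := hg
  refine ⟨h1.mul h3, C * D, fun x => ?_⟩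
  rw [norm_mul]
  exact mul_le_mul (h2 x) (h4 x) (norm_nonneg _) ((norm_nonneg _).trans (h2 x))

theorem BC.sum {X : Type} [TopologicalSpace X] {I : Type} (s : Finset I) {f : I → X → ℂ}
    (hf : ∀ i, BC (f i)) : BC (fun x => ∑ i ∈ s, f i x) := by
  classical
  induction s using Finset.induction_on with
  | empty => simpa using BC.const 0
  | insert a s ha ih =>
    simp only [Finset.sum_insert ha]
    exact (hf a).add ih

theorem BC.mulM {X : Type} [TopologicalSpace X] {I J K : Type} [Fintype J]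
    {A : X → Matrix I J ℂ} {B : X → Matrix J K ℂ} (hA : ∀ p q, BC (fun g => A g p q))
    (hB : ∀ p q, BC (fun g => B g p q)) (p : I) (q : K) : BC (fun g => (A g * B g) p q) := by
  simp only [Matrix.mul_apply]
  exact BC.sum _ (fun j => (hA p j).mul (hB j q))

theorem BC.integrable {ι : Type} [Fintype ι] {f : (ι → ℝ) → ℂ} (hf : BC f) :
    Integrable f (gam ι) := by
  obtain ⟨h1, C, h2⟩ := hf
  exact Integrable.of_bound h1.aestronglyMeasurable C (ae_of_all _ h2)

theorem integrable_coord {ι : Type} [Fintype ι] (k : ι) : Integrable (fun x : ι → ℝ => (x k : ℂ)) (gam ι) := by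
  have h1 : Integrable (fun x : ℝ => x) (gaussianReal 0 1) := by
    have h0 : MemLp id ((1 : ℝ≥0) : ENNReal) (gaussianReal 0 1) := memLp_id_gaussianReal 1
    exact memLp_one_iff_integrable.1 (by simpa using h0 : MemLp id 1 (gaussianReal 0 1))
  have h2 : MeasurePreserving (Function.eval k) (gam ι) (gaussianReal 0 1) :=
    measurePreserving_eval (fun _ : ι => gaussianReal 0 1) k
  have h3 := (h2.integrable_comp h1.aestronglyMeasurable).2 h1
  exact h3.ofReal

theorem BC.coord_mul {ι : Type} [Fintype ι] {f : (ι → ℝ) → ℂ} (hf : BC f) (k : ι) :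
    Integrable (fun x : ι → ℝ => (x k : ℂ) * f x) (gam ι) := by
  obtain ⟨h1, C, h2⟩ := hf
  exact (integrable_coord k).mul_bdd (c := C) h1.aestronglyMeasurable (ae_of_all _ h2)

theorem norm_le_sum_single {ι : Type} [Fintype ι] [DecidableEq ι] (L : (ι → ℝ) →L[ℝ] ℂ) :
    ‖L‖ ≤ ∑ k, ‖L (Pi.single k 1)‖ := by
  refine ContinuousLinearMap.opNorm_le_bound _ (Finset.sum_nonneg (fun _ _ => norm_nonneg _)) (fun x => ?_)
  have h1 : L x = ∑ k, (x k) • L (Pi.single k 1) := by
    conv_lhs => rw [← Finset.univ_sum_single x]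
    rw [map_sum]
    refine Finset.sum_congr rfl fun k _ => ?_
    rw [← map_smul]
    congr 1
    ext j
    simp [Pi.single_apply]
  rw [h1, Finset.sum_mul]
  refine (norm_sum_le _ _).trans (Finset.sum_le_sum fun k _ => ?_)
  rw [norm_smul, mul_comm]
  exact mul_le_mul_of_nonneg_left (norm_le_pi_norm x k) (norm_nonneg _)

set_option linter.unusedSectionVars false
variable {ν κ : Type} [Fintype ν] [DecidableEq ν] [Fintype κ] [DecidableEq κ]

/-- direction matrices -/
noncomputable def Bm {n : ℕ} (α : Fin n → Matrix ν ν ℂ) (i : Fin n × κ × κ) : Matrix (ν × κ) (ν × κ) ℂ :=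
  Matrix.kronecker (α i.1) (Eb i.2.1 i.2.2)

theorem W_expand (h3 : S_EB) {n : ℕ} (α : Fin n → Matrix ν ν ℂ) (g : Fin n × κ × κ → ℝ) :
    W α g = ∑ i : Fin n × κ × κ, ((g i : ℝ) : ℂ) • Bm α i := by
  unfold W
  rw [Fintype.sum_prod_type]
  refine Finset.sum_congr rfl fun j _ => ?_
  have h := ((h3 κ).1 (fun k l => g (j, k, l))).2
  rw [Fintype.sum_prod_type]
  ext ⟨x, s⟩ ⟨y, t⟩
  rw [h]
  simp only [Bm, Matrix.kronecker, Matrix.kroneckerMap_apply, Matrix.sum_apply, Matrix.smul_apply,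
    smul_eq_mul, Finset.mul_sum]
  refine Finset.sum_congr rfl fun k _ => Finset.sum_congr rfl fun l _ => ?_
  ring

end Pool.Agent.W291.GB
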